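import Pool.Agent.H96.CP.Stm

/-!
# Linear model: measurability and simple bounds (for `S_lin`)
-/

set_option autoImplicit false

open Real Set MeasureTheory Metric Filter Topology
open scoped ENNReal Nat ComplexConjugate

namespace Pool.Agent.H15.CP

open Pool.Agent.H96.CP

theorem om_re : om.re = 1 / 2 := rfl
theorem om_im : om.im = √3 / 2 := rfl

theorem D1_eq (u : ℕ → ℕ → ℂ) (i j : ℕ) :
    D1 u i j = 1 / 2 * (u i (j + 1) - u i j).re + √3 / 2 * (u i (j + 1) - u i j).im := by
  unfold D1
  rw [Complex.mul_re, Complex.conj_re, Complex.conj_im, om_re, om_im]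
  ring

theorem D2_eq (u : ℕ → ℕ → ℂ) (i j : ℕ) :
    D2 u i j = -(1 / 2) * (u i (j + 1) - u (i + 1) j).re +
      √3 / 2 * (u i (j + 1) - u (i + 1) j).im := by
  unfold D2
  rw [Complex.mul_re, Complex.conj_re, Complex.conj_im, Complex.sub_re, Complex.sub_im, om_re,
    om_im, Complex.one_re, Complex.one_im]
  ring

theorem isClosed_pos {X : Type*} [TopologicalSpace X] (N : ℕ) (f : X → ℕ → ℕ → ℂ)
    (hf : ∀ i j, Continuous fun x => f x i j) : IsClosed {x | Pos N (f x)} := by
  have h0 : ∀ i j, Continuous fun x => D0 (f x) i j := fun i j =>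
    Complex.continuous_re.comp ((hf _ _).sub (hf _ _))
  have h1 : ∀ i j, Continuous fun x => D1 (f x) i j := fun i j =>
    Complex.continuous_re.comp (continuous_const.mul ((hf _ _).sub (hf _ _)))
  have h2 : ∀ i j, Continuous fun x => D2 (f x) i j := fun i j =>
    Complex.continuous_re.comp (continuous_const.mul ((hf _ _).sub (hf _ _)))
  simp only [Pos, ofPred_and, ofPred_forall]
  refine IsClosed.inter ?_ (IsClosed.inter ?_ ?_)
  · exact isClosed_iInter fun i => isClosed_iInter fun j => isClosed_iInter fun _ =>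
      isClosed_iInter fun _ => isClosed_le continuous_const (h0 i j)
  · exact isClosed_iInter fun i => isClosed_iInter fun j => isClosed_iInter fun _ =>
      isClosed_iInter fun _ => isClosed_le continuous_const (h1 i j)
  · exact isClosed_iInter fun i => isClosed_iInter fun j => isClosed_iInter fun _ =>
      isClosed_iInter fun _ => isClosed_le continuous_const (h2 i j)

theorem continuous_ext (n i j : ℕ) :
    Continuous fun u : Fin (n + 1) × Fin (n + 1) → ℂ => ext n u i j := by
  unfold H96.CP.ext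
  split_ifs
  · exact continuous_apply _
  · exact continuous_const

theorem continuous_A (n N : ℕ) :
    Continuous fun u : Fin (n + 1) × Fin (n + 1) → ℂ => A N (ext n u) := by
  have hf := continuous_ext n
  have h0 : ∀ i j, Continuous fun x => D0 (ext n x) i j := fun i j =>
    Complex.continuous_re.comp ((hf _ _).sub (hf _ _))
  have h1 : ∀ i j, Continuous fun x => D1 (ext n x) i j := fun i j =>
    Complex.continuous_re.comp (continuous_const.mul ((hf _ _).sub (hf _ _)))
  have h2 : ∀ i j, Continuous fun x => D2 (ext n x) i j := fun i j =>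
    Complex.continuous_re.comp (continuous_const.mul ((hf _ _).sub (hf _ _)))
  unfold A
  refine (Continuous.add ?_ ?_).add ?_
  · exact continuous_finsetSum _ fun i _ => continuous_finsetSum _ fun j _ => h0 i j
  · exact continuous_finsetSum _ fun i _ => continuous_finsetSum _ fun j _ => h1 i j
  · exact continuous_finsetSum _ fun i _ => continuous_finsetSum _ fun j _ => h2 i j

theorem measurableSet_U (n : ℕ) (r : ℝ) : MeasurableSet (U n r) := by
  have h1 : IsClosed {u : Fin (n + 1) × Fin (n + 1) → ℂ | Pos n (ext n u)} :=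
    isClosed_pos n _ (continuous_ext n)
  have h2 : IsClosed {u : Fin (n + 1) × Fin (n + 1) → ℂ | ∀ q, ‖u q‖ ≤ r} := by
    rw [ofPred_forall]
    exact isClosed_iInter fun q => isClosed_le (continuous_apply q).norm continuous_const
  have h3 : U n r = {u | Pos n (ext n u)} ∩ {u | ∀ q, ‖u q‖ ≤ r} := rfl
  rw [h3]
  exact (h1.inter h2).measurableSet

theorem measurable_vb (n m : ℕ) (t : ℕ × ℕ) :
    Measurable fun u : Fin (n + 1) × Fin (n + 1) → ℂ => vb m (sh (ext n u) t) := by
  have hc : IsClosed {p : (Fin (n + 1) × Fin (n + 1) → ℂ) × (Fin m × Fin m → ℂ) |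
      Pos (m + 1) (glue m (sh (ext n p.1) t) p.2)} := by
    refine isClosed_pos (m + 1) _ fun i j => ?_
    unfold glue sh
    split_ifs
    · exact (continuous_apply _).comp continuous_snd
    · exact (continuous_ext n _ _).comp continuous_fst
  exact measurable_measure_prodMk_left hc.measurableSet

theorem A_nonneg {n : ℕ} {u : ℕ → ℕ → ℂ} (h : Pos n u) : 0 ≤ A n u := by
  obtain ⟨h0, h1, h2⟩ := h
  unfold A
  refine add_nonneg (add_nonneg ?_ ?_) ?_
  · refine Finset.sum_nonneg fun i hi => Finset.sum_nonneg fun j hj => h0 i j ?_ ?_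
    · exact Finset.mem_range.mp hi
    · exact Nat.lt_succ_iff.mp (Finset.mem_range.mp hj)
  · refine Finset.sum_nonneg fun i hi => Finset.sum_nonneg fun j hj => h1 i j ?_ ?_
    · exact Nat.lt_succ_iff.mp (Finset.mem_range.mp hi)
    · exact Finset.mem_range.mp hj
  · refine Finset.sum_nonneg fun i hi => Finset.sum_nonneg fun j hj => h2 i j ?_ ?_
    · exact Finset.mem_range.mp hi
    · exact Finset.mem_range.mp hj

theorem Zf_lt_top (n : ℕ) (r : ℝ) : Zf n r < ⊤ := by
  have h1 : Zf n r ≤ ∫⁻ _ in U n r, 1 := by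
    refine setLIntegral_mono' (measurableSet_U n r) fun u hu => ?_
    rw [← ENNReal.ofReal_one]
    refine ENNReal.ofReal_le_ofReal ?_
    rw [Real.exp_le_one_iff]
    linarith [A_nonneg hu.1]
  refine lt_of_le_of_lt h1 ?_
  rw [setLIntegral_one]
  have h2 : U n r ⊆ closedBall 0 (max r 0) := by
    intro u hu
    rw [mem_closedBall_zero_iff]
    refine (pi_norm_le_iff_of_nonneg (le_max_right _ _)).mpr fun q => (hu.2 q).trans (le_max_left _ _)
  exact lt_of_le_of_lt (measure_mono h2) measure_closedBall_lt_top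

/-- existence of a typical configuration -/
theorem exists_good (n m : ℕ) (r θ V Z : ℝ) (hV : 0 < V) (hZ : 0 < Z)
    (hZf : Zf n r = ENNReal.ofReal Z)
    (hg : ∀ s₁ s₂ : ℕ, s₁ ≤ m → s₂ ≤ m →
      ∫⁻ u in U n r, ENNReal.ofReal (Real.exp (-(θ * A n (ext n u)))) /
        ∏ t ∈ Tp n m s₁ s₂, vb m (sh (ext n u) t) ≤ ENNReal.ofReal V) :
    ∃ u ∈ U n r, ∀ s₁ s₂ : ℕ, s₁ ≤ m → s₂ ≤ m →
      ENNReal.ofReal (Z / (2 * ((m : ℝ) + 1) ^ 2 * V) * Real.exp ((1 - θ) * A n (ext n u))) ≤
        ∏ t ∈ Tp n m s₁ s₂, vb m (sh (ext n u) t) := by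
  by_contra hcon
  push Not at hcon
  set c : ℝ := Z / (2 * ((m : ℝ) + 1) ^ 2 * V) with hc
  have hc0 : 0 < c := by positivity
  set g : ℕ × ℕ → (Fin (n + 1) × Fin (n + 1) → ℂ) → ℝ≥0∞ := fun s u =>
    ENNReal.ofReal (Real.exp (-(θ * A n (ext n u)))) / ∏ t ∈ Tp n m s.1 s.2, vb m (sh (ext n u) t)
    with hgd
  have hgm : ∀ s, Measurable (g s) := by
    intro s
    refine Measurable.div ?_ ?_
    · exact (ENNReal.measurable_ofReal.comp (Real.measurable_exp.comp
        ((continuous_A n n).measurable.const_mul θ).neg))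
    · exact Finset.measurable_fun_prod _ fun t _ => measurable_vb n m t
  set Sx : Finset (ℕ × ℕ) := Finset.range (m + 1) ×ˢ Finset.range (m + 1) with hSx
  have h1 : Zf n r ≤ ∫⁻ u in U n r, ∑ s ∈ Sx, ENNReal.ofReal c * g s u := by
    refine setLIntegral_mono' (measurableSet_U n r) fun u hu => ?_
    obtain ⟨s₁, s₂, h₁, h₂, hlt⟩ := hcon u hu
    have hmem : (s₁, s₂) ∈ Sx := by
      rw [hSx, Finset.mem_product, Finset.mem_range, Finset.mem_range]
      exact ⟨Nat.lt_succ_of_le h₁, Nat.lt_succ_of_le h₂⟩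
    refine le_trans ?_ (Finset.single_le_sum (f := fun s => ENNReal.ofReal c * g s u)
      (fun _ _ => bot_le) hmem)
    show ENNReal.ofReal (Real.exp (-A n (ext n u))) ≤ ENNReal.ofReal c *
      (ENNReal.ofReal (Real.exp (-(θ * A n (ext n u)))) / ∏ t ∈ Tp n m s₁ s₂, vb m (sh (ext n u) t))
    rw [← mul_div_assoc]
    refine (ENNReal.le_div_iff_mul_le (Or.inr ?_) (Or.inl hlt.ne_top)).mpr ?_
    · exact mul_ne_zero (ENNReal.ofReal_pos.mpr hc0).ne'
        (ENNReal.ofReal_pos.mpr (Real.exp_pos _)).ne'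
    · refine (mul_le_mul_right hlt.le _).trans ?_
      rw [← ENNReal.ofReal_mul (Real.exp_pos _).le, ← ENNReal.ofReal_mul hc0.le]
      refine ENNReal.ofReal_le_ofReal (le_of_eq ?_)
      rw [mul_left_comm, ← Real.exp_add]
      congr 2
      ring
  rw [lintegral_finsetSum _ fun s _ => (hgm s).const_mul _] at h1
  have h2 : ∑ s ∈ Sx, ∫⁻ u in U n r, ENNReal.ofReal c * g s u ≤
      ∑ s ∈ Sx, ENNReal.ofReal (c * V) := by
    refine Finset.sum_le_sum fun s hs => ?_
    rw [hSx, Finset.mem_product, Finset.mem_range, Finset.mem_range] at hs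
    rw [lintegral_const_mul _ (hgm s), ENNReal.ofReal_mul hc0.le]
    exact mul_le_mul_right (hg s.1 s.2 (Nat.lt_succ_iff.mp hs.1) (Nat.lt_succ_iff.mp hs.2)) _
  have h3 : ∑ s ∈ Sx, ENNReal.ofReal (c * V) = ENNReal.ofReal (Z / 2) := by
    rw [Finset.sum_const, hSx, Finset.card_product, Finset.card_range, nsmul_eq_mul,
      ← ENNReal.ofReal_natCast, ← ENNReal.ofReal_mul (by positivity)]
    congr 1
    rw [hc]
    push_cast
    field_simp
  have h4 := h1.trans (h2.trans h3.le)
  rw [hZf, ENNReal.ofReal_le_ofReal_iff (by positivity)] at h4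
  linarith

end Pool.Agent.H15.CP
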