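import Pool.Agent.H15.CP.Basic

/-!
# Linear model: blocks with nearly affine boundary values (for `S_lin`)
-/

set_option autoImplicit false

open Real Set MeasureTheory Metric Filter Topology
open scoped ENNReal Nat ComplexConjugate

namespace Pool.Agent.H15.CP

open Pool.Agent.H96.CP

theorem sqrt3_sq : √3 * √3 = (3:ℝ) := Real.mul_self_sqrt (by norm_num)

theorem norm_om : ‖om‖ = 1 := by
  rw [Complex.norm_def, Complex.normSq_apply, om_re, om_im]
  rw [show (1 / 2 * (1 / 2) + √3 / 2 * (√3 / 2) : ℝ) = 1 by nlinarith [sqrt3_sq]]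
  exact Real.sqrt_one

theorem norm_om1 : ‖om - 1‖ = 1 := by
  rw [Complex.norm_def, Complex.normSq_apply, Complex.sub_re, Complex.sub_im, om_re, om_im,
    Complex.one_re, Complex.one_im]
  rw [show ((1 / 2 - 1) * (1 / 2 - 1) + (√3 / 2 - 0) * (√3 / 2 - 0) : ℝ) = 1 by
    nlinarith [sqrt3_sq]]
  exact Real.sqrt_one

theorem conj_mul_om : (conj om * om).re = 1 := by
  rw [mul_comm, Complex.mul_conj, Complex.ofReal_re, Complex.normSq_apply, om_re, om_im]
  nlinarith [sqrt3_sq]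

theorem conj_mul_om1 : (conj (om - 1) * (om - 1)).re = 1 := by
  rw [mul_comm, Complex.mul_conj, Complex.ofReal_re, Complex.normSq_apply, Complex.sub_re,
    Complex.sub_im, om_re, om_im, Complex.one_re, Complex.one_im]
  nlinarith [sqrt3_sq]

theorem re_ge (a z : ℂ) (ha : ‖a‖ = 1) : -‖z‖ ≤ (conj a * z).re := by
  have h1 := Complex.abs_re_le_norm (conj a * z)
  rw [norm_mul, RCLike.norm_conj, ha, one_mul] at h1
  exact (abs_le.mp h1).1

/-- a small perturbation of a configuration all whose edges gain `η` -/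
theorem pos_perturb {N : ℕ} {u v : ℕ → ℕ → ℂ} (hu : Pos N u) (x₀ : ℂ) (η : ℝ) (e : ℕ → ℕ → ℂ)
    (he : ∀ i j, i ≤ N → j ≤ N → ‖e i j‖ ≤ η / 2)
    (hv : ∀ i j, i ≤ N → j ≤ N → v i j = u i j + x₀ + η * (i + j * om) + e i j) : Pos N v := by
  obtain ⟨h0, h1, h2⟩ := hu
  refine ⟨fun i j hi hj => ?_, fun i j hi hj => ?_, fun i j hi hj => ?_⟩
  · have e1 := he i j hi.le hj
    have e2 := he (i + 1) j hi hj
    have h := h0 i j hi hj
    unfold D0 at h ⊢
    rw [hv i j hi.le hj, hv (i + 1) j hi hj]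
    have e3 : u (i + 1) j + x₀ + η * (((i + 1 : ℕ) : ℂ) + j * om) + e (i + 1) j -
        (u i j + x₀ + η * (i + j * om) + e i j) = (u (i + 1) j - u i j) + η +
          (e (i + 1) j - e i j) := by
      push_cast
      ring
    rw [e3, Complex.add_re, Complex.add_re, Complex.ofReal_re]
    have e4 : ‖e (i + 1) j - e i j‖ ≤ η := (norm_sub_le _ _).trans (by linarith)
    have e5 := (abs_le.mp ((Complex.abs_re_le_norm (e (i + 1) j - e i j)).trans e4)).1
    linarith
  · have e1 := he i j hi hj.le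
    have e2 := he i (j + 1) hi hj
    have h := h1 i j hi hj
    unfold D1 at h ⊢
    rw [hv i j hi hj.le, hv i (j + 1) hi hj]
    have e3 : u i (j + 1) + x₀ + η * ((i : ℂ) + ((j + 1 : ℕ) : ℂ) * om) + e i (j + 1) -
        (u i j + x₀ + η * (i + j * om) + e i j) = (u i (j + 1) - u i j) + η * om +
          (e i (j + 1) - e i j) := by
      push_cast
      ring
    rw [e3, mul_add, mul_add, Complex.add_re, Complex.add_re]
    have e4 : ‖e i (j + 1) - e i j‖ ≤ η := (norm_sub_le _ _).trans (by linarith)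
    have e5 := re_ge om (e i (j + 1) - e i j) norm_om
    have e6 : (conj om * (η * om)).re = η := by
      rw [mul_left_comm, Complex.re_ofReal_mul, conj_mul_om, mul_one]
    rw [e6]
    linarith
  · have e1 := he (i + 1) j hi hj.le
    have e2 := he i (j + 1) hi.le hj
    have h := h2 i j hi hj
    unfold D2 at h ⊢
    rw [hv (i + 1) j hi hj.le, hv i (j + 1) hi.le hj]
    have e3 : u i (j + 1) + x₀ + η * ((i : ℂ) + ((j + 1 : ℕ) : ℂ) * om) + e i (j + 1) -
        (u (i + 1) j + x₀ + η * (((i + 1 : ℕ) : ℂ) + j * om) + e (i + 1) j) =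
          (u i (j + 1) - u (i + 1) j) + η * (om - 1) + (e i (j + 1) - e (i + 1) j) := by
      push_cast
      ring
    rw [e3, mul_add, mul_add, Complex.add_re, Complex.add_re]
    have e4 : ‖e i (j + 1) - e (i + 1) j‖ ≤ η := (norm_sub_le _ _).trans (by linarith)
    have e5 := re_ge (om - 1) (e i (j + 1) - e (i + 1) j) norm_om1
    have e6 : (conj (om - 1) * (η * (om - 1))).re = η := by
      rw [mul_left_comm, Complex.re_ofReal_mul, conj_mul_om1, mul_one]
    rw [e6]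
    linarith

theorem glue_int (m : ℕ) (b : ℕ → ℕ → ℂ) (w : Fin m × Fin m → ℂ) (i j : ℕ)
    (h : (1 ≤ i ∧ i ≤ m) ∧ 1 ≤ j ∧ j ≤ m) :
    glue m b w i j = w (⟨i - 1, by omega⟩, ⟨j - 1, by omega⟩) := by
  unfold glue
  rw [dif_pos h]

theorem glue_bd (m : ℕ) (b : ℕ → ℕ → ℂ) (w : Fin m × Fin m → ℂ) (i j : ℕ)
    (h : ¬ ((1 ≤ i ∧ i ≤ m) ∧ 1 ≤ j ∧ j ≤ m)) : glue m b w i j = b i j := by
  unfold glue
  rw [dif_neg h]

/-- comparison with affine boundary values -/
theorem vb_le_aff (m : ℕ) (b : ℕ → ℕ → ℂ) (b₀ c₁ c₂ : ℂ) (η : ℝ) (hη : 0 ≤ η)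
    (h : ∀ i j, i ≤ m + 1 → j ≤ m + 1 → ‖b i j - b₀ - i * c₁ - j * c₂‖ ≤ η / 2) :
    vb m b ≤ vb m (aff (c₁ + η) (c₂ + η * om)) := by
  set τ : Fin m × Fin m → ℂ := fun q =>
    -b₀ + η * ((((q.1 : ℕ) + 1 : ℕ) : ℂ) + (((q.2 : ℕ) + 1 : ℕ) : ℂ) * om) with hτ
  have hsub : Kb m b ⊆ (fun w => w + τ) ⁻¹' Kb m (aff (c₁ + η) (c₂ + η * om)) := by
    intro w hw
    refine pos_perturb hw (-b₀) η (fun i j => if (1 ≤ i ∧ i ≤ m) ∧ 1 ≤ j ∧ j ≤ m then 0 else
      -(b i j - b₀ - i * c₁ - j * c₂)) ?_ ?_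
    · intro i j hi hj
      show ‖(if (1 ≤ i ∧ i ≤ m) ∧ 1 ≤ j ∧ j ≤ m then (0:ℂ) else
        -(b i j - b₀ - i * c₁ - j * c₂))‖ ≤ η / 2
      split_ifs
      · rw [norm_zero]
        linarith
      · rw [norm_neg]
        exact h i j hi hj
    · intro i j hi hj
      by_cases hij : (1 ≤ i ∧ i ≤ m) ∧ 1 ≤ j ∧ j ≤ m
      · rw [glue_int m _ _ i j hij, glue_int m _ _ i j hij]
        simp only [Pi.add_apply, hτ, if_pos hij]
        have e1 : i - 1 + 1 = i := by omega
        have e2 : j - 1 + 1 = j := by omega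
        rw [e1, e2]
        ring
      · rw [glue_bd m _ _ i j hij, glue_bd m _ _ i j hij]
        simp only [if_neg hij]
        unfold aff
        ring
  calc vb m b = volume (Kb m b) := rfl
    _ ≤ volume ((fun w => w + τ) ⁻¹' Kb m (aff (c₁ + η) (c₂ + η * om))) := measure_mono hsub
    _ = volume (Kb m (aff (c₁ + η) (c₂ + η * om))) := measure_preimage_add_right _ _ _

/-- the regular lattice dilated -/
theorem vb_aff_one (m : ℕ) :
    ENNReal.ofReal (Real.exp (-1 * ((m : ℝ) + 1) ^ 2)) ≤ vb m (aff 1 om) := by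
  set a : Fin m × Fin m → ℂ := fun q =>
    (((q.1 : ℕ) + 1 : ℕ) : ℂ) + (((q.2 : ℕ) + 1 : ℕ) : ℂ) * om with ha
  have hsub : closedBall a (1 / 2) ⊆ Kb m (aff 1 om) := by
    intro w hw
    have hw' : ∀ q, ‖w q - a q‖ ≤ 1 / 2 := by
      intro q
      have := (dist_pi_le_iff (by norm_num)).mp (mem_closedBall.mp hw) q
      rwa [dist_eq_norm] at this
    have h0 : Pos (m + 1) (fun _ _ => 0) := by
      refine ⟨fun i j _ _ => ?_, fun i j _ _ => ?_, fun i j _ _ => ?_⟩
      · simp [D0]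
      · simp [D1]
      · simp [D2]
    refine pos_perturb h0 0 1 (fun i j => if h : (1 ≤ i ∧ i ≤ m) ∧ 1 ≤ j ∧ j ≤ m then
      w (⟨i - 1, by omega⟩, ⟨j - 1, by omega⟩) - a (⟨i - 1, by omega⟩, ⟨j - 1, by omega⟩)
      else 0) ?_ ?_
    · intro i j hi hj
      split_ifs with hij
      · exact hw' _
      · rw [norm_zero]
        norm_num
    · intro i j hi hj
      by_cases hij : (1 ≤ i ∧ i ≤ m) ∧ 1 ≤ j ∧ j ≤ m
      · rw [glue_int m _ _ i j hij]
        simp only [dif_pos hij]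
        have e1 : i - 1 + 1 = i := by omega
        have e2 : j - 1 + 1 = j := by omega
        rw [ha]
        simp only [e1, e2, Complex.ofReal_one]
        ring
      · rw [glue_bd m _ _ i j hij]
        simp only [dif_neg hij]
        unfold aff
        simp
  have hvol : volume (closedBall a (1 / 2)) = ENNReal.ofReal ((π / 4) ^ (m ^ 2)) := by
    rw [MeasureTheory.volume_pi_closedBall _ (by norm_num)]
    simp only [Complex.volume_closedBall]
    rw [Finset.prod_const, Finset.card_univ, Fintype.card_prod, Fintype.card_fin, ← sq,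
      ← ENNReal.ofReal_pow (by norm_num), ← ENNReal.ofReal_coe_nnreal,
      ← ENNReal.ofReal_mul (by norm_num), ← ENNReal.ofReal_pow (by positivity)]
    congr 2
    rw [NNReal.coe_real_pi]
    ring
  refine le_trans ?_ (measure_mono hsub)
  rw [hvol]
  refine ENNReal.ofReal_le_ofReal ?_
  have h1 : Real.exp (-1) ≤ π / 4 := by
    have h2 := Real.exp_neg_one_lt_d9
    have h3 := Real.pi_gt_three
    linarith
  calc Real.exp (-1 * ((m : ℝ) + 1) ^ 2) ≤ Real.exp (-1 * (m : ℝ) ^ 2) := by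
        rw [Real.exp_le_exp]
        have : (0:ℝ) ≤ m := Nat.cast_nonneg m
        nlinarith
    _ = Real.exp (-1) ^ (m ^ 2) := by
        rw [← Real.exp_nat_mul]
        congr 1
        push_cast
        ring
    _ ≤ (π / 4) ^ (m ^ 2) := pow_le_pow_left₀ (Real.exp_pos _).le h1 _

theorem A_aff (N : ℕ) (c₁ c₂ : ℂ) : A N (aff c₁ c₂) = (N : ℝ) * (N + 1) * c₁.re +
    (N + 1) * N * (conj om * c₂).re + N * N * (conj (om - 1) * (c₂ - c₁)).re := by
  have h0 : ∀ i j, D0 (aff c₁ c₂) i j = c₁.re := by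
    intro i j
    unfold D0 aff
    congr 1
    push_cast
    ring
  have h1 : ∀ i j, D1 (aff c₁ c₂) i j = (conj om * c₂).re := by
    intro i j
    unfold D1 aff
    congr 2
    push_cast
    ring
  have h2 : ∀ i j, D2 (aff c₁ c₂) i j = (conj (om - 1) * (c₂ - c₁)).re := by
    intro i j
    unfold D2 aff
    congr 2
    push_cast
    ring
  unfold A
  simp only [h0, h1, h2, Finset.sum_const, Finset.card_range, nsmul_eq_mul]
  push_cast
  ring

theorem A_aff_le (N : ℕ) (hN : 1 ≤ N) (c₁ c₂ : ℂ) (h : PosA c₁ c₂) :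
    A N (aff c₁ c₂) ≤ 2 * (N : ℝ) ^ 2 * ar c₁ c₂ := by
  obtain ⟨h0, h1, h2⟩ := h
  rw [A_aff]
  unfold ar
  have hN' : (1:ℝ) ≤ N := by exact_mod_cast hN
  nlinarith [mul_nonneg (mul_nonneg (by linarith : (0:ℝ) ≤ N) (by linarith : (0:ℝ) ≤ N - 1)) h0,
    mul_nonneg (mul_nonneg (by linarith : (0:ℝ) ≤ N) (by linarith : (0:ℝ) ≤ N - 1)) h1,
    mul_nonneg (mul_nonneg (by linarith : (0:ℝ) ≤ N) (by linarith : (0:ℝ) ≤ N)) h2]

theorem posA_add {c₁ c₂ : ℂ} (h : PosA c₁ c₂) {η : ℝ} (hη : 0 ≤ η) :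
    PosA (c₁ + η) (c₂ + η * om) ∧ ar (c₁ + η) (c₂ + η * om) = ar c₁ c₂ + 3 * η := by
  obtain ⟨h0, h1, h2⟩ := h
  have e0 : (c₁ + (η : ℂ)).re = c₁.re + η := by
    rw [Complex.add_re, Complex.ofReal_re]
  have e1 : (conj om * (c₂ + η * om)).re = (conj om * c₂).re + η := by
    rw [mul_add, Complex.add_re, mul_left_comm, Complex.re_ofReal_mul, conj_mul_om, mul_one]
  have e2 : (conj (om - 1) * (c₂ + η * om - (c₁ + η))).re =
      (conj (om - 1) * (c₂ - c₁)).re + η := by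
    rw [show c₂ + η * om - (c₁ + η) = (c₂ - c₁) + η * (om - 1) by ring, mul_add, Complex.add_re,
      mul_left_comm (conj (om - 1)) (η : ℂ), Complex.re_ofReal_mul, conj_mul_om1, mul_one]
  refine ⟨⟨?_, ?_, ?_⟩, ?_⟩
  · rw [e0]
    linarith
  · rw [e1]
    linarith
  · rw [e2]
    linarith
  · unfold ar
    rw [e0, e1, e2]
    ring

end Pool.Agent.H15.CP
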