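import Pool.Agent.H15.CP.Block

/-!
# Linear model: the core inequality (for `S_lin`)
-/

set_option autoImplicit false

open Real Set MeasureTheory Metric Filter Topology
open scoped ENNReal Nat ComplexConjugate

namespace Pool.Agent.H15.CP

open Pool.Agent.H96.CP

/-- the bound of `S_block` with a given constant -/
def BlockBd (C : ℝ) : Prop := ∀ (m : ℕ) (b : ℕ → ℕ → ℂ) (θ : ℝ), 0 < θ → θ ≤ 1 →
  vb m b ≤ ENNReal.ofReal (Real.exp (θ * A (m + 1) b) * (C / θ ^ 2) ^ (m ^ 2))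

theorem vb_ne_top {C : ℝ} (hb : BlockBd C) (m : ℕ) (b : ℕ → ℕ → ℂ) : vb m b ≠ ⊤ :=
  (lt_of_le_of_lt (hb m b 1 one_pos le_rfl) ENNReal.ofReal_lt_top).ne

theorem log_block {C : ℝ} (hC : 1 ≤ C) (hb : BlockBd C) (m : ℕ) (b : ℕ → ℕ → ℂ) {θ : ℝ}
    (hθ : 0 < θ) (hθ1 : θ ≤ 1) (h0 : vb m b ≠ 0) :
    Real.log (vb m b).toReal ≤ θ * A (m + 1) b + (m : ℝ) ^ 2 * Real.log (C / θ ^ 2) := by
  have h1 : (vb m b).toReal ≤ Real.exp (θ * A (m + 1) b) * (C / θ ^ 2) ^ (m ^ 2) :=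
    ENNReal.toReal_le_of_le_ofReal (by positivity) (hb m b θ hθ hθ1)
  have h2 : 0 < (vb m b).toReal := ENNReal.toReal_pos h0 (vb_ne_top hb m b)
  have h3 := Real.log_le_log h2 h1
  rw [Real.log_mul (Real.exp_pos _).ne' (by positivity), Real.log_exp, Real.log_pow] at h3
  push_cast at h3
  exact h3

/-- all positions -/
def Ps (n m : ℕ) : Finset (ℕ × ℕ) :=
  (Finset.range (n + 1) ×ˢ Finset.range (n + 1)).filter fun t =>
    t.1 + (m + 1) ≤ n ∧ t.2 + (m + 1) ≤ n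

theorem mem_Ps {n m : ℕ} {t : ℕ × ℕ} : t ∈ Ps n m ↔ t.1 + (m + 1) ≤ n ∧ t.2 + (m + 1) ≤ n := by
  unfold Ps
  rw [Finset.mem_filter, Finset.mem_product, Finset.mem_range, Finset.mem_range]
  constructor
  · exact fun h => h.2
  · exact fun h => ⟨⟨by omega, by omega⟩, h⟩

theorem mem_Tp {n m s₁ s₂ : ℕ} {t : ℕ × ℕ} : t ∈ Tp n m s₁ s₂ ↔
    t.1 % (m + 1) = s₁ ∧ t.2 % (m + 1) = s₂ ∧ t.1 + (m + 1) ≤ n ∧ t.2 + (m + 1) ≤ n := by
  unfold Tp
  rw [Finset.mem_filter, Finset.mem_product, Finset.mem_range, Finset.mem_range]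
  constructor
  · exact fun h => h.2
  · exact fun h => ⟨⟨by omega, by omega⟩, h⟩

theorem card_Ps (n m : ℕ) : ((Ps n m).card : ℝ) ≤ ((n : ℝ) + 1) ^ 2 := by
  have h : (Ps n m).card ≤ (n + 1) * (n + 1) := by
    refine (Finset.card_filter_le _ _).trans (le_of_eq ?_)
    rw [Finset.card_product, Finset.card_range]
  have h2 : ((Ps n m).card : ℝ) ≤ ((n + 1) * (n + 1) : ℕ) := by exact_mod_cast h
  push_cast at h2
  nlinarith

theorem sum_Tp (n m : ℕ) (f : ℕ × ℕ → ℝ) :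
    ∑ s ∈ Finset.range (m + 1) ×ˢ Finset.range (m + 1), ∑ t ∈ Tp n m s.1 s.2, f t =
      ∑ t ∈ Ps n m, f t := by
  rw [← Finset.sum_fiberwise_of_maps_to (s := Ps n m)
    (t := Finset.range (m + 1) ×ˢ Finset.range (m + 1))
    (g := fun t => (t.1 % (m + 1), t.2 % (m + 1)))]
  · refine Finset.sum_congr rfl fun s _ => Finset.sum_congr ?_ fun _ _ => rfl
    ext t
    rw [mem_Tp, Finset.mem_filter, mem_Ps, Prod.ext_iff]
    tauto
  · intro t _
    rw [Finset.mem_product, Finset.mem_range, Finset.mem_range]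
    exact ⟨Nat.mod_lt _ (Nat.succ_pos m), Nat.mod_lt _ (Nat.succ_pos m)⟩

/-- a configuration in which the blocks of every offset have a large volume -/
def Good (n m : ℕ) (c θ : ℝ) (u : ℕ → ℕ → ℂ) : Prop := ∀ s₁ s₂ : ℕ, s₁ ≤ m → s₂ ≤ m →
  ENNReal.ofReal (c * Real.exp ((1 - θ) * A n u)) ≤ ∏ t ∈ Tp n m s₁ s₂, vb m (sh u t)

theorem Good.pos {n m : ℕ} {c θ : ℝ} {u : ℕ → ℕ → ℂ} (h : Good n m c θ u) (hc : 0 < c)
    {t : ℕ × ℕ} (ht : t ∈ Ps n m) : vb m (sh u t) ≠ 0 := by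
  have h1 := h (t.1 % (m + 1)) (t.2 % (m + 1)) (Nat.lt_succ_iff.mp (Nat.mod_lt _ (Nat.succ_pos m)))
    (Nat.lt_succ_iff.mp (Nat.mod_lt _ (Nat.succ_pos m)))
  have h2 : 0 < ∏ t ∈ Tp n m (t.1 % (m + 1)) (t.2 % (m + 1)), vb m (sh u t) :=
    lt_of_lt_of_le (ENNReal.ofReal_pos.mpr (by positivity)) h1
  rw [mem_Ps] at ht
  exact Finset.prod_ne_zero_iff.mp h2.ne' t (mem_Tp.mpr ⟨rfl, rfl, ht.1, ht.2⟩)

theorem Good.sum {C : ℝ} (hb : BlockBd C) {n m : ℕ} {c θ : ℝ} {u : ℕ → ℕ → ℂ}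
    (h : Good n m c θ u) (hc : 0 < c) :
    ((m : ℝ) + 1) ^ 2 * (Real.log c + (1 - θ) * A n u) ≤
      ∑ t ∈ Ps n m, Real.log (vb m (sh u t)).toReal := by
  rw [← sum_Tp]
  have h1 : ∀ s ∈ Finset.range (m + 1) ×ˢ Finset.range (m + 1),
      Real.log c + (1 - θ) * A n u ≤ ∑ t ∈ Tp n m s.1 s.2, Real.log (vb m (sh u t)).toReal := by
    intro s hs
    rw [Finset.mem_product, Finset.mem_range, Finset.mem_range] at hs
    have h2 := h s.1 s.2 (Nat.lt_succ_iff.mp hs.1) (Nat.lt_succ_iff.mp hs.2)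
    have hfin : ∏ t ∈ Tp n m s.1 s.2, vb m (sh u t) ≠ ⊤ :=
      (ENNReal.prod_lt_top fun t _ => (vb_ne_top hb m _).lt_top).ne
    rw [ENNReal.ofReal_le_iff_le_toReal hfin, ENNReal.toReal_prod] at h2
    have h3 := Real.log_le_log (by positivity) h2
    rw [Real.log_mul hc.ne' (Real.exp_pos _).ne', Real.log_exp, Real.log_prod] at h3
    · exact h3
    · intro t ht
      have ht' : t ∈ Ps n m := by
        rw [mem_Tp] at ht
        rw [mem_Ps]
        exact ht.2.2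
      exact (ENNReal.toReal_pos (h.pos hc ht') (vb_ne_top hb m _)).ne'
  have h4 := Finset.card_nsmul_le_sum _ _ _ h1
  rw [Finset.card_product, Finset.card_range, nsmul_eq_mul] at h4
  push_cast at h4
  rw [sq]
  exact h4

/-- upper bound of the sum of the logarithms of the volumes over a set of positions -/
theorem sum_log_le {C : ℝ} (hC : 1 ≤ C) (hb : BlockBd C) (harea : S_area) {n m : ℕ}
    {u : ℕ → ℕ → ℂ} (hu : Pos n u) {θ : ℝ} (hθ : 0 < θ) (hθ1 : θ ≤ 1) (T : Finset (ℕ × ℕ))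
    (hT : T ⊆ Ps n m) (h0 : ∀ t ∈ T, vb m (sh u t) ≠ 0) :
    ∑ t ∈ T, Real.log (vb m (sh u t)).toReal ≤
      ((m : ℝ) + 1) ^ 2 * (4 * θ * A n u) + T.card * ((m : ℝ) ^ 2 * Real.log (C / θ ^ 2)) := by
  have h1 : ∑ t ∈ T, Real.log (vb m (sh u t)).toReal ≤
      ∑ t ∈ T, (θ * A (m + 1) (sh u t) + (m : ℝ) ^ 2 * Real.log (C / θ ^ 2)) :=
    Finset.sum_le_sum fun t ht => log_block hC hb m _ hθ hθ1 (h0 t ht)
  rw [Finset.sum_add_distrib, ← Finset.mul_sum, Finset.sum_const, nsmul_eq_mul] at h1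
  have h2 := harea.2.2 n m u hu T fun t ht => mem_Ps.mp (hT ht)
  have h3 := mul_le_mul_of_nonneg_left h2 hθ.le
  linarith

/-- the area of a good configuration is bounded -/
theorem Good.area {C : ℝ} (hC : 1 ≤ C) (hb : BlockBd C) (harea : S_area) {n m : ℕ} {c θ : ℝ}
    {u : ℕ → ℕ → ℂ} (h : Good n m c θ u) (hc : 0 < c) (hu : Pos n u) :
    (3 / 4 - θ) * A n u ≤ -Real.log c + ((n : ℝ) + 1) ^ 2 * Real.log (256 * C) := by
  have h1 := h.sum hb hc
  have h2 := sum_log_le hC hb harea hu (θ := 1 / 16) (by norm_num) (by norm_num) (Ps n m)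
    (Finset.Subset.refl _) fun t ht => h.pos hc ht
  rw [show C / (1 / 16) ^ 2 = 256 * C by ring] at h2
  have hL : 0 ≤ Real.log (256 * C) := Real.log_nonneg (by linarith)
  have hm : (0:ℝ) ≤ m := Nat.cast_nonneg m
  have h3 : ((Ps n m).card : ℝ) * ((m : ℝ) ^ 2 * Real.log (256 * C)) ≤
      ((m : ℝ) + 1) ^ 2 * (((n : ℝ) + 1) ^ 2 * Real.log (256 * C)) := by
    calc ((Ps n m).card : ℝ) * ((m : ℝ) ^ 2 * Real.log (256 * C)) ≤
        ((n : ℝ) + 1) ^ 2 * (((m : ℝ) + 1) ^ 2 * Real.log (256 * C)) := by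
          refine mul_le_mul (card_Ps n m) ?_ (by positivity) (by positivity)
          refine mul_le_mul_of_nonneg_right ?_ hL
          nlinarith
      _ = _ := by ring
  have h4 : ((m : ℝ) + 1) ^ 2 * (Real.log c + (1 - θ) * A n u) ≤
      ((m : ℝ) + 1) ^ 2 * (4 * (1 / 16) * A n u + ((n : ℝ) + 1) ^ 2 * Real.log (256 * C)) := by
    rw [mul_add (((m : ℝ) + 1) ^ 2) (4 * (1 / 16) * A n u)]
    linarith
  have h5 := le_of_mul_le_mul_left h4 (by positivity)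
  linarith

/-- **The core inequality.** -/
theorem core {C : ℝ} (hC : 1 ≤ C) (hb : BlockBd C) (hmean : S_mean) (harea : S_area)
    {n m d k : ℕ} {c θ η : ℝ} {u : ℕ → ℕ → ℂ} (hk : 1 ≤ k) (hdk : k + 2 * d + (m + 1) = n)
    (hu : Pos n u) (hc : 0 < c) (hθ : 0 < θ) (hθ1 : θ ≤ 1) (hη : 0 ≤ η) (h : Good n m c θ u)
    (haff : ∀ i j : ℕ, i ≤ m + 1 → j ≤ m + 1 →
      ‖Um d k u i j - Um d k u 0 0 - i * (Um d k u 1 0 - Um d k u 0 0) -
        j * (Um d k u 0 1 - Um d k u 0 0)‖ ≤ η / 2) :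
    ∃ (c₁ c₂ : ℂ) (κ : ℝ), PosA c₁ c₂ ∧
      ENNReal.ofReal (Real.exp (κ * ((m : ℝ) + 1) ^ 2)) ≤ vb m (aff c₁ c₂) ∧
      κ - ar c₁ c₂ ≤ Real.log (4 * C) ∧
      Real.log c ≤ (k : ℝ) ^ 2 * (κ - ar c₁ c₂ + 3 * η) - (1 - 5 * θ) * A n u + A n u +
        (((n : ℝ) + 1) ^ 2 - (k : ℝ) ^ 2) * Real.log (C / θ ^ 2) := by
  set d₁ : ℂ := Um d k u 1 0 - Um d k u 0 0 with hd₁
  set d₂ : ℂ := Um d k u 0 1 - Um d k u 0 0 with hd₂
  obtain ⟨hpos, harA⟩ := harea.1 n d k u hk (by omega) hu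
  obtain ⟨hpos', har'⟩ := posA_add hpos hη
  set c₁ : ℂ := d₁ + η with hc₁
  set c₂ : ℂ := d₂ + η * om with hc₂
  have hm : (0:ℝ) ≤ m := Nat.cast_nonneg m
  have hk' : (0:ℝ) < k := by exact_mod_cast hk
  have hR : (0:ℝ) < ((m : ℝ) + 1) ^ 2 := by positivity
  -- the window
  set T₀ : Finset (ℕ × ℕ) := Finset.range k ×ˢ Finset.range k with hT₀
  set T' : Finset (ℕ × ℕ) := T₀.image fun t => (d + t.1, d + t.2) with hT'
  have hinj : ∀ x ∈ T₀, ∀ y ∈ T₀, (d + x.1, d + x.2) = (d + y.1, d + y.2) → x = y := by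
    intro x _ y _ hxy
    rw [Prod.mk.injEq] at hxy
    exact Prod.ext (by omega) (by omega)
  have hcard₀ : T₀.card = k * k := by rw [hT₀, Finset.card_product, Finset.card_range]
  have hcard' : T'.card = k * k := by
    rw [hT', Finset.card_image_of_injOn, hcard₀]
    intro x hx y hy hxy
    exact hinj x hx y hy hxy
  have hT'sub : T' ⊆ Ps n m := by
    intro t ht
    rw [hT', Finset.mem_image] at ht
    obtain ⟨x, hx, rfl⟩ := ht
    rw [hT₀, Finset.mem_product, Finset.mem_range, Finset.mem_range] at hx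
    rw [mem_Ps]
    constructor
    · show d + x.1 + (m + 1) ≤ n
      omega
    · show d + x.2 + (m + 1) ≤ n
      omega
  have hpos0 : ∀ t ∈ Ps n m, vb m (sh u t) ≠ 0 := fun t ht => h.pos hc ht
  -- the mean
  have hne : T₀.Nonempty := by
    rw [← Finset.card_pos, hcard₀]
    positivity
  have hmn := hmean m (ℕ × ℕ) T₀ (fun t => sh u (d + t.1, d + t.2)) hne
  have hUm : (fun i j => ((T₀.card : ℂ))⁻¹ * ∑ t ∈ T₀, sh u (d + t.1, d + t.2) i j) =
      Um d k u := by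
    funext i j
    unfold Um
    rw [hcard₀, hT₀, Finset.sum_product]
    congr 2
    push_cast
    ring
  have hmn' : ∏ t ∈ T₀, vb m (sh u (d + t.1, d + t.2)) ≤ vb m (Um d k u) ^ (k * k) := by
    have := hmn
    simp only [hcard₀] at this
    rw [hcard₀] at hUm
    rw [hUm] at this
    exact this
  have hprod0 : ∏ t ∈ T₀, vb m (sh u (d + t.1, d + t.2)) ≠ 0 := by
    rw [Finset.prod_ne_zero_iff]
    intro t ht
    refine hpos0 _ (hT'sub ?_)
    rw [hT']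
    exact Finset.mem_image_of_mem (fun t : ℕ × ℕ => (d + t.1, d + t.2)) ht
  have hUm0 : vb m (Um d k u) ≠ 0 := by
    intro h0
    rw [h0, zero_pow (by positivity)] at hmn'
    exact hprod0 (le_antisymm hmn' bot_le)
  have hcmp : vb m (Um d k u) ≤ vb m (aff c₁ c₂) :=
    vb_le_aff m (Um d k u) (Um d k u 0 0) d₁ d₂ η hη haff
  have haff0 : vb m (aff c₁ c₂) ≠ 0 := fun h0 => hUm0 (le_antisymm (h0 ▸ hcmp) bot_le)
  have hafft := vb_ne_top hb m (aff c₁ c₂)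
  have haffp : 0 < (vb m (aff c₁ c₂)).toReal := ENNReal.toReal_pos haff0 hafft
  set κ : ℝ := Real.log (vb m (aff c₁ c₂)).toReal / ((m : ℝ) + 1) ^ 2 with hκ
  have hκR : κ * ((m : ℝ) + 1) ^ 2 = Real.log (vb m (aff c₁ c₂)).toReal := by
    rw [hκ]
    field_simp
  refine ⟨c₁, c₂, κ, hpos', ?_, ?_, ?_⟩
  · rw [hκR, Real.exp_log haffp, ENNReal.ofReal_toReal hafft]
  · have h1 := log_block hC hb m (aff c₁ c₂) (θ := 1 / 2) (by norm_num) (by norm_num) haff0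
    rw [show C / (1 / 2) ^ 2 = 4 * C by ring] at h1
    have h2 := A_aff_le (m + 1) (by omega) c₁ c₂ hpos'
    push_cast at h2
    have hL : 0 ≤ Real.log (4 * C) := Real.log_nonneg (by linarith)
    have h3 : (m : ℝ) ^ 2 * Real.log (4 * C) ≤ ((m : ℝ) + 1) ^ 2 * Real.log (4 * C) :=
      mul_le_mul_of_nonneg_right (by nlinarith) hL
    have h4 : ((m : ℝ) + 1) ^ 2 * κ ≤ ((m : ℝ) + 1) ^ 2 * (ar c₁ c₂ + Real.log (4 * C)) := by
      rw [mul_comm _ κ, hκR]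
      linarith
    have h5 := le_of_mul_le_mul_left h4 hR
    linarith
  · -- the volume of the mean
    have hlogUm : ∑ t ∈ T', Real.log (vb m (sh u t)).toReal ≤
        (k : ℝ) ^ 2 * Real.log (vb m (Um d k u)).toReal := by
      rw [hT', Finset.sum_image hinj, ← Real.log_prod, ← ENNReal.toReal_prod]
      · have h1 : (∏ t ∈ T₀, vb m (sh u (d + t.1, d + t.2))).toReal ≤
            (vb m (Um d k u) ^ (k * k)).toReal :=
          ENNReal.toReal_mono (ENNReal.pow_ne_top (vb_ne_top hb m _)) hmn'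
        have h2 : 0 < (∏ t ∈ T₀, vb m (sh u (d + t.1, d + t.2))).toReal :=
          ENNReal.toReal_pos hprod0
            (ENNReal.prod_lt_top fun t _ => (vb_ne_top hb m _).lt_top).ne
        have h3 := Real.log_le_log h2 h1
        rw [ENNReal.toReal_pow, Real.log_pow] at h3
        push_cast at h3
        rw [sq]
        exact h3
      · intro t ht
        refine (ENNReal.toReal_pos (hpos0 _ (hT'sub ?_)) (vb_ne_top hb m _)).ne'
        rw [hT']
        exact Finset.mem_image_of_mem (fun t : ℕ × ℕ => (d + t.1, d + t.2)) ht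
    have hlogcmp : Real.log (vb m (Um d k u)).toReal ≤ κ * ((m : ℝ) + 1) ^ 2 := by
      rw [hκR]
      exact Real.log_le_log (ENNReal.toReal_pos hUm0 (vb_ne_top hb m _))
        (ENNReal.toReal_mono hafft hcmp)
    have hT'2 : ∑ t ∈ T', Real.log (vb m (sh u t)).toReal ≤
        (k : ℝ) ^ 2 * (κ * ((m : ℝ) + 1) ^ 2) :=
      hlogUm.trans (mul_le_mul_of_nonneg_left hlogcmp (by positivity))
    -- the rest
    have hrest := sum_log_le hC hb harea hu hθ hθ1 (Ps n m \ T') Finset.sdiff_subset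
      fun t ht => hpos0 t (Finset.sdiff_subset ht)
    have hcardr : ((Ps n m \ T').card : ℝ) ≤ ((n : ℝ) + 1) ^ 2 - (k : ℝ) ^ 2 := by
      rw [Finset.card_sdiff_of_subset hT'sub, Nat.cast_sub (Finset.card_le_card hT'sub), hcard']
      push_cast
      nlinarith [card_Ps n m]
    have hL : 0 ≤ Real.log (C / θ ^ 2) := by
      refine Real.log_nonneg ?_
      rw [le_div_iff₀ (by positivity), one_mul]
      nlinarith
    have hrest2 : ((Ps n m \ T').card : ℝ) * ((m : ℝ) ^ 2 * Real.log (C / θ ^ 2)) ≤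
        ((m : ℝ) + 1) ^ 2 * ((((n : ℝ) + 1) ^ 2 - (k : ℝ) ^ 2) * Real.log (C / θ ^ 2)) := by
      calc ((Ps n m \ T').card : ℝ) * ((m : ℝ) ^ 2 * Real.log (C / θ ^ 2)) ≤
          (((n : ℝ) + 1) ^ 2 - (k : ℝ) ^ 2) * (((m : ℝ) + 1) ^ 2 * Real.log (C / θ ^ 2)) := by
            refine mul_le_mul hcardr ?_ (by positivity) (le_trans (by positivity) hcardr)
            refine mul_le_mul_of_nonneg_right ?_ hL
            nlinarith
        _ = _ := by ring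
    have hsplit := Finset.sum_sdiff (f := fun t => Real.log (vb m (sh u t)).toReal) hT'sub
    have hsum := h.sum hb hc
    rw [← hsplit] at hsum
    have h6 : ((m : ℝ) + 1) ^ 2 * (Real.log c + (1 - θ) * A n u) ≤ ((m : ℝ) + 1) ^ 2 *
        ((k : ℝ) ^ 2 * κ + 4 * θ * A n u +
          (((n : ℝ) + 1) ^ 2 - (k : ℝ) ^ 2) * Real.log (C / θ ^ 2)) := by
      linarith
    have h7 := le_of_mul_le_mul_left h6 hR
    rw [har']
    have h8 : (k : ℝ) ^ 2 * (κ - (ar d₁ d₂ + 3 * η) + 3 * η) =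
        (k : ℝ) ^ 2 * κ - (k : ℝ) ^ 2 * ar d₁ d₂ := by ring
    rw [h8]
    linarith

end Pool.Agent.H15.CP
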