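import Pool.Agent.H15.CP.Core

/-!
# Linear model: assembly of `S_lin`
-/

set_option autoImplicit false

open Real Set MeasureTheory Metric Filter Topology
open scoped ENNReal Nat ComplexConjugate

namespace Pool.Agent.H15.CP

open Pool.Agent.H96.CP

theorem sum_blocks (F : ℕ → ℝ) (q D : ℕ) :
    ∑ a ∈ Finset.range D, ∑ x ∈ Finset.range q, F (q * a + x) =
      ∑ y ∈ Finset.range (q * D), F y := by
  induction D with
  | zero => simp
  | succ D ih => rw [Finset.sum_range_succ, ih, Nat.mul_succ, Finset.sum_range_add]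

/-- a window whose two pairs of border lines have a small sum -/
theorem exists_line (n R D : ℕ) (F : ℕ → ℝ) (hF : ∀ x, x ≤ n → 0 ≤ F x)
    (hD : 1 ≤ D)
    (hDn : 2 * (D * (R + 1)) ≤ n) : ∃ a < D,
    (D : ℝ) * ∑ x ∈ Finset.range (R + 1), (F ((R + 1) * a + x) +
      F ((R + 1) * a + (n - R - 2 * ((R + 1) * a)) + x)) ≤ 2 * ∑ x ∈ Finset.range (n + 1), F x := by
  by_contra hcon
  push Not at hcon
  have hle : ∀ a < D, 2 * ((R + 1) * a) + R + (R + 1) + 1 ≤ n := by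
    intro a ha
    have : (a + 1) * (R + 1) ≤ D * (R + 1) := Nat.mul_le_mul_right _ ha
    nlinarith
  have h1 : ∑ a ∈ Finset.range D, ∑ x ∈ Finset.range (R + 1), F ((R + 1) * a + x) ≤
      ∑ x ∈ Finset.range (n + 1), F x := by
    rw [sum_blocks]
    refine Finset.sum_le_sum_of_subset_of_nonneg ?_ fun x hx _ =>
      hF x (Nat.lt_succ_iff.mp (Finset.mem_range.mp hx))
    intro x hx
    rw [Finset.mem_range] at hx ⊢
    nlinarith
  have h2 : ∑ a ∈ Finset.range D, ∑ x ∈ Finset.range (R + 1),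
      F ((R + 1) * a + (n - R - 2 * ((R + 1) * a)) + x) ≤ ∑ x ∈ Finset.range (n + 1), F x := by
    have e1 : ∀ a ∈ Finset.range D, ∑ x ∈ Finset.range (R + 1),
        F ((R + 1) * a + (n - R - 2 * ((R + 1) * a)) + x) =
        ∑ x ∈ Finset.range (R + 1), F (n - ((R + 1) * a + x)) := by
      intro a ha
      have hle' := hle a (Finset.mem_range.mp ha)
      rw [← Finset.sum_range_reflect]
      refine Finset.sum_congr rfl fun x hx => ?_
      rw [Finset.mem_range] at hx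
      congr 1
      omega
    rw [Finset.sum_congr rfl e1, sum_blocks (fun y => F (n - y)) (R + 1) D,
      ← Finset.sum_range_reflect (fun x => F x) (n + 1)]
    refine Finset.sum_le_sum_of_subset_of_nonneg ?_ fun x _ _ => hF _ (Nat.sub_le _ _)
    intro x hx
    rw [Finset.mem_range] at hx ⊢
    nlinarith
  have h3 : ∑ a ∈ Finset.range D, ((D : ℝ) * ∑ x ∈ Finset.range (R + 1),
      (F ((R + 1) * a + x) + F ((R + 1) * a + (n - R - 2 * ((R + 1) * a)) + x))) ≤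
      D * (2 * ∑ x ∈ Finset.range (n + 1), F x) := by
    rw [← Finset.mul_sum]
    refine mul_le_mul_of_nonneg_left ?_ (Nat.cast_nonneg D)
    simp only [Finset.sum_add_distrib]
    linarith
  have h4 : D * (2 * ∑ x ∈ Finset.range (n + 1), F x) <
      ∑ a ∈ Finset.range D, ((D : ℝ) * ∑ x ∈ Finset.range (R + 1),
      (F ((R + 1) * a + x) + F ((R + 1) * a + (n - R - 2 * ((R + 1) * a)) + x))) := by
    have : ∑ _a ∈ Finset.range D, (2 * ∑ x ∈ Finset.range (n + 1), F x) <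
        ∑ a ∈ Finset.range D, ((D : ℝ) * ∑ x ∈ Finset.range (R + 1),
      (F ((R + 1) * a + x) + F ((R + 1) * a + (n - R - 2 * ((R + 1) * a)) + x))) := by
      refine Finset.sum_lt_sum_of_nonempty ?_ fun a ha => hcon a (Finset.mem_range.mp ha)
      rw [Finset.nonempty_range_iff]
      omega
    rw [Finset.sum_const, Finset.card_range, nsmul_eq_mul] at this
    exact this
  linarith

/-- the size of the entropy of the grid -/
theorem grid_small {ε G LC LR : ℝ} {m : ℕ} (hε : 0 < ε) (hG : 0 ≤ G) (hLC : 0 ≤ LC) (hLR : 0 ≤ LR)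
    (hm : 32 * G ≤ ε * ((m : ℝ) + 1)) : ∀ᶠ n : ℕ in atTop,
    LR + 8 * ((n : ℝ) + 1) * (LC + 2 * √n) +
      2 * ((n : ℝ) + 1) * (((n : ℝ) + 1) / ((m : ℝ) + 1) + 2 * m + 4) * G ≤ ε / 4 * (n : ℝ) ^ 2 := by
  set K : ℝ := 8 * (LR + 16 * LC + 32 + 8 * ((m : ℝ) + 2) * G) / ε + 2 with hK
  have hK2 : 2 ≤ K := by
    rw [hK]
    have : 0 ≤ 8 * (LR + 16 * LC + 32 + 8 * ((m : ℝ) + 2) * G) / ε := by positivity
    linarith
  have hev : ∀ᶠ n : ℕ in atTop, K ^ 2 ≤ (n : ℝ) :=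
    tendsto_natCast_atTop_atTop.eventually_ge_atTop (K ^ 2)
  filter_upwards [hev] with n hn
  have hn0 : (0:ℝ) ≤ n := Nat.cast_nonneg n
  set q : ℝ := √n with hq
  have hq2 : q * q = n := Real.mul_self_sqrt hn0
  have hqK : K ≤ q := Real.le_sqrt_of_sq_le hn
  have hq0 : 2 ≤ q := hK2.trans hqK
  have hm0 : (0:ℝ) ≤ m := Nat.cast_nonneg m
  have hm1 : (0:ℝ) < (m : ℝ) + 1 := by positivity
  rw [← hq2]
  -- the pieces
  have p1 : LR ≤ LR * q ^ 3 := by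
    have : (1:ℝ) ≤ q ^ 3 := one_le_pow₀ (by linarith)
    nlinarith
  have hqq : q * q + 1 ≤ 2 * (q * q) := by nlinarith
  have p2 : 8 * (q * q + 1) * (LC + 2 * q) ≤ (16 * LC + 32) * q ^ 3 := by
    calc 8 * (q * q + 1) * (LC + 2 * q) ≤ 8 * (2 * (q * q)) * (LC * q + 2 * q) := by
          gcongr
          nlinarith
      _ = (16 * LC + 32) * q ^ 3 := by ring
  have p3 : 2 * (q * q + 1) * ((q * q + 1) / ((m : ℝ) + 1) + 2 * m + 4) * G ≤
      ε / 8 * q ^ 4 + 8 * ((m : ℝ) + 2) * G * q ^ 3 := by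
    have e1 : 2 * (q * q + 1) * ((q * q + 1) / ((m : ℝ) + 1)) * G ≤ ε / 8 * q ^ 4 := by
      have e2 : G / ((m : ℝ) + 1) ≤ ε / 32 := by
        rw [div_le_div_iff₀ hm1 (by norm_num)]
        linarith
      have e3 : (q * q + 1) ^ 2 ≤ 2 * q ^ 4 := by nlinarith [mul_self_nonneg (q * q - 2)]
      calc 2 * (q * q + 1) * ((q * q + 1) / ((m : ℝ) + 1)) * G =
          2 * (q * q + 1) ^ 2 * (G / ((m : ℝ) + 1)) := by field_simp
        _ ≤ 2 * (2 * q ^ 4) * (ε / 32) := by gcongr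
        _ = ε / 8 * q ^ 4 := by ring
    have e4 : 2 * (q * q + 1) * (2 * m + 4) * G ≤ 8 * ((m : ℝ) + 2) * G * q ^ 3 := by
      calc 2 * (q * q + 1) * (2 * m + 4) * G ≤ 2 * (2 * (q * q)) * (2 * m + 4) * G := by gcongr
        _ = 8 * ((m : ℝ) + 2) * G * q ^ 2 := by ring
        _ ≤ 8 * ((m : ℝ) + 2) * G * q ^ 3 := by
          refine mul_le_mul_of_nonneg_left ?_ (by positivity)
          exact pow_le_pow_right₀ (by linarith) (by norm_num)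
    calc 2 * (q * q + 1) * ((q * q + 1) / ((m : ℝ) + 1) + 2 * m + 4) * G =
        2 * (q * q + 1) * ((q * q + 1) / ((m : ℝ) + 1)) * G +
          2 * (q * q + 1) * (2 * m + 4) * G := by ring
      _ ≤ _ := add_le_add e1 e4
  have p4 : (LR + 16 * LC + 32 + 8 * ((m : ℝ) + 2) * G) * q ^ 3 ≤ ε / 8 * q ^ 4 := by
    have e1 : LR + 16 * LC + 32 + 8 * ((m : ℝ) + 2) * G ≤ ε / 8 * q := by
      have e2 : 8 * (LR + 16 * LC + 32 + 8 * ((m : ℝ) + 2) * G) / ε ≤ q := by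
        rw [hK] at hqK
        linarith
      rw [div_le_iff₀ hε] at e2
      linarith
    calc (LR + 16 * LC + 32 + 8 * ((m : ℝ) + 2) * G) * q ^ 3 ≤ ε / 8 * q * q ^ 3 := by gcongr
      _ = ε / 8 * q ^ 4 := by ring
  have p5 : ε / 4 * (q * q) ^ 2 = ε / 4 * q ^ 4 := by ring
  rw [p5]
  linarith

theorem exists_block (ε G : ℝ) (hε : 0 < ε) : ∃ m : ℕ, 1 ≤ m ∧
    2 / ((m : ℝ) + 1) * Real.log (16 / ε ^ 2) ≤ ε ∧ 32 * G ≤ ε * ((m : ℝ) + 1) := by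
  obtain ⟨m, hm⟩ := exists_nat_ge (max (2 * Real.log (16 / ε ^ 2) / ε) (max (32 * G / ε) 1))
  have h1 := (le_max_left _ _).trans hm
  have h2 := ((le_max_left _ _).trans (le_max_right _ _)).trans hm
  have h3 : (1:ℝ) ≤ m := ((le_max_right _ _).trans (le_max_right _ _)).trans hm
  refine ⟨m, by exact_mod_cast h3, ?_, ?_⟩
  · rw [div_le_iff₀ hε] at h1
    rw [div_mul_eq_mul_div, div_le_iff₀ (by positivity)]
    nlinarith
  · rw [div_le_iff₀ hε] at h2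
    nlinarith

theorem posA_one : PosA 1 om := by
  refine ⟨?_, ?_, ?_⟩
  · rw [Complex.one_re]
    norm_num
  · rw [conj_mul_om]
    norm_num
  · rw [conj_mul_om1]
    norm_num

theorem ar_one : ar 1 om = 3 := by
  unfold ar
  rw [conj_mul_om, conj_mul_om1, Complex.one_re]
  norm_num

/-- **`S_lin`** -/
theorem lin (hmean : S_mean) (hblock : S_block) (hgrid : S_grid) (haffine : S_affine)
    (harea : S_area) : S_lin := by
  obtain ⟨Cb, hCb, hb⟩ := hblock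
  obtain ⟨Cg, hCg, hg⟩ := hgrid
  obtain ⟨Ca, hCa, ha⟩ := haffine
  have hb' : BlockBd Cb := hb
  have hL4 : 0 ≤ Real.log (4 * Cb) := Real.log_nonneg (by linarith)
  have hL256 : 0 ≤ Real.log (256 * Cb) := Real.log_nonneg (by linarith)
  have hLg : 0 ≤ Real.log Cg := Real.log_nonneg hCg
  obtain ⟨C, hC⟩ : ∃ C : ℝ, C = Real.log (4 * Cb) + 40 := ⟨_, rfl⟩
  have hC40 : 40 ≤ C := by linarith
  refine ⟨C, by linarith, fun ε hε hε1 => ?_⟩
  obtain ⟨C₁, hC₁⟩ : ∃ C₁ : ℝ, C₁ = 10 + 4 * Real.log (256 * Cb) := ⟨_, rfl⟩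
  have hC₁10 : 10 ≤ C₁ := by linarith
  obtain ⟨θ, hθ⟩ : ∃ θ : ℝ, θ = ε / (80 * C₁) := ⟨_, rfl⟩
  have hθ0 : 0 < θ := by
    rw [hθ]
    positivity
  have hθC : 5 * θ * C₁ = ε / 16 := by
    rw [hθ]
    field_simp
    norm_num
  have hθ1 : θ ≤ 1 / 4 := by nlinarith
  have hθ1' : θ ≤ 1 := by linarith
  obtain ⟨η, hη⟩ : ∃ η : ℝ, η = ε / 24 := ⟨_, rfl⟩
  have hη0 : 0 < η := by linarith
  have hθsq : θ ^ 2 ≤ 1 := by nlinarith
  obtain ⟨Lθ, hLθ⟩ : ∃ x : ℝ, x = Real.log (Cb / θ ^ 2) := ⟨_, rfl⟩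
  have hLθ0 : 0 ≤ Lθ := by
    rw [hLθ]
    refine Real.log_nonneg ?_
    rw [le_div_iff₀ (by positivity)]
    linarith
  obtain ⟨G, hG⟩ : ∃ x : ℝ, x = Real.log (Cg / θ ^ 2) := ⟨_, rfl⟩
  have hG0 : 0 ≤ G := by
    rw [hG]
    refine Real.log_nonneg ?_
    rw [le_div_iff₀ (by positivity)]
    linarith
  obtain ⟨δ, hδ⟩ : ∃ x : ℝ, x = ε / (48 * (Lθ + C)) := ⟨_, rfl⟩
  have hδ0 : 0 < δ := by
    rw [hδ]
    positivity
  have hδC : 12 * δ * (Lθ + C) = ε / 4 := by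
    rw [hδ]
    field_simp
    norm_num
  have hδ1 : δ ≤ 1 / 1920 := by nlinarith
  obtain ⟨m, hm1, hm2, hm3⟩ := exists_block ε G hε
  have hm0 : (1:ℝ) ≤ m := by exact_mod_cast hm1
  have hLR : 0 ≤ Real.log (2 * ((m : ℝ) + 1) ^ 2) := Real.log_nonneg (by nlinarith)
  have hev1 := grid_small (LC := Real.log Cg) (LR := Real.log (2 * ((m : ℝ) + 1) ^ 2)) (m := m)
    hε hG0 hLg hLR hm3
  have hev2 : ∀ᶠ n : ℕ in atTop, ((m : ℝ) + 2) / δ ≤ (n : ℝ) :=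
    tendsto_natCast_atTop_atTop.eventually_ge_atTop _
  have hev3 : ∀ᶠ n : ℕ in atTop,
      64 * Ca * C₁ * ((m : ℝ) + 1) ^ 2 * ((m : ℝ) + 2) / (δ * η) ≤ (n : ℝ) :=
    tendsto_natCast_atTop_atTop.eventually_ge_atTop _
  obtain ⟨n₀, hn₀⟩ := eventually_atTop.mp (hev1.and (hev2.and hev3))
  refine ⟨m, n₀, hm1, hm2, fun n hn r hr hlr => ?_⟩
  obtain ⟨q1, q2, q3⟩ := hn₀ n hn
  rw [div_le_iff₀ hδ0] at q2
  rw [div_le_iff₀ (by positivity)] at q3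
  have hn0 : (0:ℝ) ≤ n := Nat.cast_nonneg n
  have hδn' : δ * n ≤ n / 1920 := by
    have := mul_le_mul_of_nonneg_right hδ1 hn0
    linarith
  have hnbig : 1920 * ((m : ℝ) + 2) ≤ n := by linarith
  have hn3 : (3:ℝ) ≤ n := by linarith
  have hZt := (Zf_lt_top n r).ne
  obtain ⟨Z, hZ⟩ : ∃ x : ℝ, x = (Zf n r).toReal := ⟨_, rfl⟩
  have hZf : Zf n r = ENNReal.ofReal Z := by
    rw [hZ, ENNReal.ofReal_toReal hZt]
  rcases le_or_gt Z (Real.exp (-4 * (n : ℝ) ^ 2)) with hsmall | hbig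
  · -- the trivial case
    refine ⟨1, om, -1, posA_one, vb_aff_one m, ?_, ?_⟩
    · rw [ar_one, abs_le]
      constructor <;> linarith
    · rw [hZf, ar_one]
      refine ENNReal.ofReal_le_ofReal (hsmall.trans ?_)
      rw [Real.exp_le_exp]
      have := mul_nonneg (sq_nonneg (n : ℝ)) hε.le
      linarith
  have hZ0 : 0 < Z := (Real.exp_pos _).trans hbig
  have hlogZ : -4 * (n : ℝ) ^ 2 ≤ Real.log Z := (Real.le_log_iff_exp_le hZ0).mpr hbig.le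
  -- the bound of the grid
  obtain ⟨V, hV⟩ : ∃ x : ℝ, x = (Cg * r ^ 2) ^ (8 * (n + 1)) *
      (Cg / θ ^ 2) ^ (2 * (n + 1) * ((n + 1) / (m + 1) + 2 * m + 4)) := ⟨_, rfl⟩
  have hr0 : 0 < r := by linarith
  have hV0 : 0 < V := by
    rw [hV]
    positivity
  have hn2m : 2 * (m + 1) ≤ n := by
    have : (2:ℝ) * (m + 1) ≤ n := by linarith
    exact_mod_cast this
  obtain ⟨u₀, hu₀, hgood⟩ := exists_good n m r θ V Z hV0 hZ0 hZf fun s₁ s₂ h₁ h₂ => by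
    rw [hV]
    exact hg n m s₁ s₂ r θ hm1 hn2m h₁ h₂ hr hθ0 hθ1'
  obtain ⟨u, hu⟩ : ∃ x : ℕ → ℕ → ℂ, x = H96.CP.ext n u₀ := ⟨_, rfl⟩
  rw [← hu] at hgood
  have hPos : Pos n u := by
    rw [hu]
    exact hu₀.1
  obtain ⟨c, hc⟩ : ∃ x : ℝ, x = Z / (2 * ((m : ℝ) + 1) ^ 2 * V) := ⟨_, rfl⟩
  have hc0 : 0 < c := by
    rw [hc]
    positivity
  have hGood : Good n m c θ u := by
    rw [hc]
    exact hgood
  -- the logarithm of the bound of the grid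
  obtain ⟨lV, hlV⟩ : ∃ x : ℝ, x = Real.log (2 * ((m : ℝ) + 1) ^ 2) + Real.log V := ⟨_, rfl⟩
  have hlogc : Real.log c = Real.log Z - lV := by
    rw [hc, hlV, Real.log_div hZ0.ne' (by positivity), Real.log_mul (by positivity) hV0.ne']
  have hlVle : lV ≤ ε / 4 * (n : ℝ) ^ 2 := by
    refine le_trans ?_ q1
    have e1 : Real.log V = 8 * ((n : ℝ) + 1) * (Real.log Cg + 2 * Real.log r) +
        ((2 * (n + 1) * ((n + 1) / (m + 1) + 2 * m + 4) : ℕ) : ℝ) * G := by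
      rw [hV, Real.log_mul (by positivity) (by positivity), Real.log_pow, Real.log_pow, ← hG,
        Real.log_mul (by positivity) (by positivity), Real.log_pow]
      push_cast
      ring
    have e2 : ((2 * (n + 1) * ((n + 1) / (m + 1) + 2 * m + 4) : ℕ) : ℝ) ≤
        2 * ((n : ℝ) + 1) * (((n : ℝ) + 1) / ((m : ℝ) + 1) + 2 * m + 4) := by
      have e3 : (((n + 1) / (m + 1) : ℕ) : ℝ) ≤ ((n : ℝ) + 1) / ((m : ℝ) + 1) := by
        have := @Nat.cast_div_le ℝ _ _ _ (n + 1) (m + 1)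
        push_cast at this
        exact this
      push_cast
      gcongr
    have e4 := mul_le_mul_of_nonneg_right e2 hG0
    have e5 : 8 * ((n : ℝ) + 1) * (Real.log Cg + 2 * Real.log r) ≤
        8 * ((n : ℝ) + 1) * (Real.log Cg + 2 * √n) := by gcongr
    rw [hlV, e1]
    linarith
  -- the area
  have hA0 := A_nonneg hPos
  have h3n : 3 * (n : ℝ) ≤ n * n := mul_le_mul_of_nonneg_right hn3 hn0
  have hn1sq : ((n : ℝ) + 1) ^ 2 ≤ 2 * (n : ℝ) ^ 2 := by linarith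
  have hAle : A n u ≤ C₁ * (n : ℝ) ^ 2 := by
    have e1 := hGood.area hCb hb' harea hc0 hPos
    have e2 : 1 / 2 * A n u ≤ (3 / 4 - θ) * A n u :=
      mul_le_mul_of_nonneg_right (by linarith) hA0
    have e3 := mul_le_mul_of_nonneg_right hn1sq hL256
    have e4 : ε / 4 * (n : ℝ) ^ 2 ≤ 1 / 4 * (n : ℝ) ^ 2 := by gcongr
    have e5 : C₁ * (n : ℝ) ^ 2 = 10 * (n : ℝ) ^ 2 + 4 * Real.log (256 * Cb) * (n : ℝ) ^ 2 := by
      rw [hC₁]
      ring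
    rw [e5]
    linarith [sq_nonneg (n : ℝ)]
  -- the window
  obtain ⟨D, hD⟩ : ∃ x : ℕ, x = ⌊δ * n / ((m : ℝ) + 2)⌋₊ := ⟨_, rfl⟩
  have hx1 : 1 ≤ δ * n / ((m : ℝ) + 2) := by
    rw [le_div_iff₀ (by positivity)]
    linarith
  have hD1 : 1 ≤ D := by
    rw [hD]
    exact (Nat.one_le_floor_iff _).mpr hx1
  have hDle : (D : ℝ) * ((m : ℝ) + 2) ≤ δ * n := by
    have := Nat.floor_le (le_trans zero_le_one hx1)
    rw [← hD, le_div_iff₀ (by positivity)] at this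
    exact this
  have hDge : δ * n ≤ 2 * (D : ℝ) * ((m : ℝ) + 2) := by
    have e1 := Nat.lt_floor_add_one (δ * n / ((m : ℝ) + 2))
    rw [← hD] at e1
    have e2 : (1:ℝ) ≤ D := by exact_mod_cast hD1
    have e3 : δ * n / ((m : ℝ) + 2) ≤ 2 * D := by linarith
    rw [div_le_iff₀ (by positivity)] at e3
    exact e3
  have hDn : 2 * (D * (m + 1 + 1)) ≤ n := by
    have : (2:ℝ) * (D * ((m : ℝ) + 1 + 1)) ≤ n := by linarith
    exact_mod_cast this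
  obtain ⟨a, haD, hline⟩ := exists_line n (m + 1) D (LS n u) (harea.2.1 n u hPos).1 hD1 hDn
  obtain ⟨d, hd⟩ : ∃ x : ℕ, x = (m + 1 + 1) * a := ⟨_, rfl⟩
  rw [← hd] at hline
  have hdle : (d : ℝ) ≤ δ * n := by
    have e1 : (a : ℝ) ≤ D := by exact_mod_cast haD.le
    rw [hd]
    push_cast
    have e2 := mul_le_mul_of_nonneg_left e1 (by positivity : (0:ℝ) ≤ (m : ℝ) + 2)
    linarith
  have hdk : 2 * d + (m + 1) + 1 ≤ n := by
    have : (2:ℝ) * d + (m + 1) + 1 ≤ n := by linarith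
    exact_mod_cast this
  obtain ⟨k, hk⟩ : ∃ x : ℕ, x = n - (m + 1) - 2 * d := ⟨_, rfl⟩
  have hkn : k + 2 * d + (m + 1) = n := by omega
  rw [← hk] at hline
  have hk1 : 1 ≤ k := by omega
  have hkn' : (k : ℝ) + 2 * d + (m + 1) = n := by exact_mod_cast hkn
  have hk0 : (0:ℝ) < k := by exact_mod_cast hk1
  have hkge : (1 - 3 * δ) * n ≤ k := by linarith
  have hkle : (k : ℝ) ≤ n := by
    have : (0:ℝ) ≤ d := Nat.cast_nonneg d
    linarith
  have hk2 : (n : ℝ) ^ 2 ≤ 2 * (k : ℝ) ^ 2 := by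
    have e1 : 9 / 10 * (n : ℝ) ≤ k := by linarith
    have e2 : (9 / 10 * (n : ℝ)) ^ 2 ≤ (k : ℝ) ^ 2 := pow_le_pow_left₀ (by positivity) e1 2
    linarith [sq_nonneg (n : ℝ)]
  have hgap : ((n : ℝ) + 1) ^ 2 - (k : ℝ) ^ 2 ≤ 12 * δ * (n : ℝ) ^ 2 := by
    have e1 : (0:ℝ) ≤ (1 - 3 * δ) * n := mul_nonneg (by linarith) hn0
    have e2 : ((1 - 3 * δ) * n) ^ 2 ≤ (k : ℝ) ^ 2 := pow_le_pow_left₀ e1 hkge 2
    have e3 : (2:ℝ) ≤ δ * n := by linarith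
    linarith [mul_nonneg (sq_nonneg δ) (sq_nonneg (n:ℝ)), mul_le_mul_of_nonneg_right e3 hn0]
  -- near affinity
  have hR1 : (1:ℝ) ≤ ((m + 1 : ℕ) : ℝ) := by
    push_cast
    linarith
  have hsumle : ∑ x ∈ Finset.range (m + 1 + 1), (LS n u (d + x) + LS n u (d + k + x)) * (δ * n) ≤
      8 * C₁ * ((m : ℝ) + 2) * (n : ℝ) ^ 2 := by
    rw [← Finset.sum_mul]
    set S : ℝ := ∑ x ∈ Finset.range (m + 1 + 1), (LS n u (d + x) + LS n u (d + k + x)) with hS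
    have hS0 : 0 ≤ S := by
      refine Finset.sum_nonneg fun x hx => ?_
      rw [Finset.mem_range] at hx
      exact add_nonneg ((harea.2.1 n u hPos).1 _ (by omega))
        ((harea.2.1 n u hPos).1 _ (by omega))
    have e1 := (harea.2.1 n u hPos).2
    have e2 : (D : ℝ) * S ≤ 4 * A n u := by linarith
    calc S * (δ * n) ≤ S * (2 * (D : ℝ) * ((m : ℝ) + 2)) := mul_le_mul_of_nonneg_left hDge hS0
      _ = 2 * ((m : ℝ) + 2) * (D * S) := by ring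
      _ ≤ 2 * ((m : ℝ) + 2) * (4 * (C₁ * (n : ℝ) ^ 2)) := by
          refine mul_le_mul_of_nonneg_left ?_ (by positivity)
          linarith
      _ = 8 * C₁ * ((m : ℝ) + 2) * (n : ℝ) ^ 2 := by ring
  rw [← Finset.sum_mul] at hsumle
  have haff : ∀ i j : ℕ, i ≤ m + 1 → j ≤ m + 1 →
      ‖Um d k u i j - Um d k u 0 0 - i * (Um d k u 1 0 - Um d k u 0 0) -
        j * (Um d k u 0 1 - Um d k u 0 0)‖ ≤ η / 2 := by
    intro i j hi hj
    refine (ha n (m + 1) d k u hk1 (by omega) (by omega) hPos i j hi hj).trans ?_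
    set S : ℝ := ∑ x ∈ Finset.range (m + 1 + 1), (LS n u (d + x) + LS n u (d + k + x)) with hS
    have hδn : 0 < δ * n := mul_pos hδ0 (by linarith)
    have e1 : S ≤ 8 * C₁ * ((m : ℝ) + 2) * (n : ℝ) ^ 2 / (δ * n) := by
      rw [le_div_iff₀ hδn]
      exact hsumle
    have hn0' : (0:ℝ) < n := by linarith
    calc Ca * ((m + 1 : ℕ) : ℝ) ^ 2 / (k : ℝ) ^ 2 * S ≤
        Ca * ((m + 1 : ℕ) : ℝ) ^ 2 / (k : ℝ) ^ 2 *
          (8 * C₁ * ((m : ℝ) + 2) * (n : ℝ) ^ 2 / (δ * n)) := by gcongr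
      _ ≤ Ca * ((m + 1 : ℕ) : ℝ) ^ 2 / (k : ℝ) ^ 2 *
          (8 * C₁ * ((m : ℝ) + 2) * (2 * (k : ℝ) ^ 2) / (δ * n)) := by gcongr
      _ = 16 * Ca * C₁ * ((m : ℝ) + 1) ^ 2 * ((m : ℝ) + 2) / (δ * n) := by
          push_cast
          field_simp
          ring
      _ ≤ η / 2 := by
          rw [div_le_iff₀ hδn]
          have : 0 ≤ Ca * C₁ * ((m : ℝ) + 1) ^ 2 * ((m : ℝ) + 2) := by positivity
          linarith
  obtain ⟨c₁, c₂, κ, hp, hvb, hκ, hcore⟩ :=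
    core hCb hb' hmean harea hk1 hkn hPos hc0 hθ0 hθ1' hη0.le hGood haff
  rw [← hLθ, hlogc] at hcore
  have hθA : 5 * θ * A n u ≤ ε / 16 * (n : ℝ) ^ 2 := by
    have := mul_le_mul_of_nonneg_left hAle (by positivity : 0 ≤ 5 * θ)
    calc 5 * θ * A n u ≤ 5 * θ * (C₁ * (n : ℝ) ^ 2) := this
      _ = (5 * θ * C₁) * (n : ℝ) ^ 2 := by ring
      _ = ε / 16 * (n : ℝ) ^ 2 := by rw [hθC]
  have hkk : (k : ℝ) ^ 2 ≤ (n : ℝ) ^ 2 := pow_le_pow_left₀ hk0.le hkle 2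
  have hηk : (k : ℝ) ^ 2 * (3 * η) ≤ ε / 8 * (n : ℝ) ^ 2 := by
    rw [hη]
    have := mul_le_mul_of_nonneg_left hkk (by positivity : 0 ≤ ε / 8)
    linarith
  have hgapL : (((n : ℝ) + 1) ^ 2 - (k : ℝ) ^ 2) * (Lθ + C) ≤ ε / 4 * (n : ℝ) ^ 2 := by
    calc (((n : ℝ) + 1) ^ 2 - (k : ℝ) ^ 2) * (Lθ + C) ≤ 12 * δ * (n : ℝ) ^ 2 * (Lθ + C) :=
          mul_le_mul_of_nonneg_right hgap (by positivity)
      _ = 12 * δ * (Lθ + C) * (n : ℝ) ^ 2 := by ring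
      _ = ε / 4 * (n : ℝ) ^ 2 := by rw [hδC]
  have hgap0 : 0 ≤ ((n : ℝ) + 1) ^ 2 - (k : ℝ) ^ 2 := by linarith
  have hgapLθ : (((n : ℝ) + 1) ^ 2 - (k : ℝ) ^ 2) * Lθ ≤ ε / 4 * (n : ℝ) ^ 2 := by
    have := mul_nonneg hgap0 (by linarith : 0 ≤ C)
    linarith
  have hεn : ε * (n : ℝ) ^ 2 ≤ (n : ℝ) ^ 2 := mul_le_of_le_one_left (sq_nonneg _) hε1
  obtain ⟨X, hX⟩ : ∃ x : ℝ, x = κ - ar c₁ c₂ := ⟨_, rfl⟩
  rw [← hX] at hκ hcore
  have hlow : -10 ≤ X := by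
    have e1 : -5 * (n : ℝ) ^ 2 ≤ (k : ℝ) ^ 2 * X := by linarith [sq_nonneg (n : ℝ)]
    by_contra hcon
    push Not at hcon
    have hk2' : 0 < (k : ℝ) ^ 2 := by positivity
    have := mul_lt_mul_of_pos_left hcon hk2'
    linarith
  have hXC : |X| ≤ C := by
    rw [abs_le]
    constructor <;> linarith
  refine ⟨c₁, c₂, κ, hp, hvb, by rw [← hX]; exact hXC, ?_⟩
  rw [hZf, ← hX]
  refine ENNReal.ofReal_le_ofReal ?_
  rw [← Real.exp_log hZ0, Real.exp_le_exp]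
  have hmain : (k : ℝ) ^ 2 * X ≤ (n : ℝ) ^ 2 * X + ((n : ℝ) ^ 2 - (k : ℝ) ^ 2) * C := by
    have := mul_nonneg (sub_nonneg.mpr hkk) (by linarith [(abs_le.mp hXC).1] : 0 ≤ X + C)
    linarith
  have hmain2 : ((n : ℝ) ^ 2 - (k : ℝ) ^ 2) * C ≤ (((n : ℝ) + 1) ^ 2 - (k : ℝ) ^ 2) * C := by
    refine mul_le_mul_of_nonneg_right ?_ (by linarith)
    linarith
  linarith [mul_nonneg hε.le (sq_nonneg (n : ℝ))]

end Pool.Agent.H15.CP
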