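import Pool.Agent.H96.CP.Stm4

/-!
# Mean pressures and coexistence near close packing (`S_pres`)
-/

set_option autoImplicit false

open Real Set MeasureTheory Metric Filter Topology
open scoped ENNReal Nat ComplexConjugate

namespace Pool.Agent.H15.CP

open Pool.Agent.H96.CP

theorem log_lower {η : ℝ} (hη : 0 < η) : 2 * η - η ^ 2 ≤ 2 * Real.log (1 + η) := by
  have h2 := Real.le_log_one_add_of_nonneg hη.le
  have h : η - η ^ 2 / 2 ≤ Real.log (1 + η) := by
    refine le_trans ?_ h2
    rw [le_div_iff₀ (by linarith)]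
    nlinarith [pow_pos hη 3]
  linarith

theorem log_upper {η : ℝ} (hη : 0 < η) (hη1 : η ≤ 1 / 2) :
    -Real.log (1 - η) ≤ η + 2 * η ^ 2 := by
  have h1 := Real.one_sub_inv_le_log_of_pos (show 0 < 1 - η by linarith)
  have h2 : (1 - η)⁻¹ ≤ 1 + η + 2 * η ^ 2 := by
    rw [inv_le_iff_one_le_mul₀ (by linarith)]
    nlinarith [pow_pos hη 2, pow_pos hη 3, mul_nonneg (pow_pos hη 2).le (sub_nonneg.mpr hη1)]
  linarith

/-- **`S_pres`** -/
theorem pres : S_pres := by
  intro F v₀ δ₀ a c hδ₀ ha hF hG
  have hnear : ∀ q : ℝ, 0 < q → ∃ δ : ℝ, 0 < δ ∧ δ ≤ δ₀ ∧ ∀ v : ℝ, v₀ < v → v < v₀ + δ →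
      |F v + 2 * Real.log ((v - v₀) / a) - c| ≤ q := by
    intro q hq
    have h1 := (Metric.tendsto_nhds.mp hG) q hq
    rw [eventually_nhdsWithin_iff, Metric.eventually_nhds_iff] at h1
    obtain ⟨δ, hδ, h1⟩ := h1
    refine ⟨min δ δ₀, lt_min hδ hδ₀, min_le_right _ _, fun v hv hv' => ?_⟩
    have h2 : dist v v₀ < δ := by
      rw [Real.dist_eq, abs_lt]
      have := min_le_left δ δ₀
      constructor <;> linarith
    have h3 := h1 h2 hv
    rw [Real.dist_eq] at h3
    exact h3.le
  constructor
  · intro ε hε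
    set η : ℝ := min (1 / 2) (ε / 5) with hη
    have hη0 : 0 < η := lt_min (by norm_num) (by positivity)
    have hη1 : η ≤ 1 / 2 := min_le_left _ _
    have hη2 : η ≤ ε / 5 := min_le_right _ _
    obtain ⟨δ, hδ, hδδ₀, hq⟩ := hnear (η ^ 2 / 2) (by positivity)
    refine ⟨δ / 2, by positivity, fun v v' hv hvv hv' => ?_⟩
    have hx : 0 < v - v₀ := by linarith
    have hx' : 0 < v' - v₀ := by linarith
    have hd : 0 < v' - v := by linarith
    constructor
    · -- the slope on `[v', w]`
      set w := v' + η * (v' - v₀) with hw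
      have hwv : v' < w := by
        rw [hw]
        have := mul_pos hη0 hx'
        linarith
      have hwd : w < v₀ + δ := by
        rw [hw]
        have : η * (v' - v₀) ≤ 1 / 2 * (v' - v₀) := mul_le_mul_of_nonneg_right hη1 hx'.le
        linarith
      have hs := hF.slope_mono_adjacent (x := v) (y := v') (z := w)
        ⟨hv, by linarith⟩ ⟨by linarith, by linarith⟩ hvv hwv
      have g1 := abs_le.mp (hq v' (by linarith) (by linarith))
      have g2 := abs_le.mp (hq w (by linarith) hwd)
      have e1 : (w - v₀) / a = (1 + η) * ((v' - v₀) / a) := by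
        rw [hw]
        ring
      rw [e1, Real.log_mul (by positivity) (by positivity)] at g2
      have e2 : 2 * Real.log (1 + η) - η ^ 2 ≤ F v' - F w := by linarith [g1.1, g2.2]
      have e3 := log_lower hη0
      have e4 : (2 - ε) / (v' - v₀) ≤ (F v' - F w) / (w - v') := by
        have hwv' : w - v' = η * (v' - v₀) := by
          rw [hw]
          ring
        rw [hwv', div_le_div_iff₀ hx' (by positivity)]
        have e5 : (2 - ε) * η ≤ F v' - F w := by nlinarith
        calc (2 - ε) * (η * (v' - v₀)) = (2 - ε) * η * (v' - v₀) := by ring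
          _ ≤ (F v' - F w) * (v' - v₀) := mul_le_mul_of_nonneg_right e5 hx'.le
      refine e4.trans ?_
      have e6 : (F v' - F w) / (w - v') = -((F w - F v') / (w - v')) := by
        rw [← neg_div]
        congr 1
        ring
      have e7 : (F v - F v') / (v' - v) = -((F v' - F v) / (v' - v)) := by
        rw [← neg_div]
        congr 1
        ring
      rw [e6, e7]
      linarith
    · -- the slope on `[w, v]`
      set w := v - η * (v - v₀) with hw
      have hwv : w < v := by
        rw [hw]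
        have := mul_pos hη0 hx
        linarith
      have hw0 : v₀ < w := by
        rw [hw]
        have : η * (v - v₀) ≤ 1 / 2 * (v - v₀) := mul_le_mul_of_nonneg_right hη1 hx.le
        linarith
      have hs := hF.slope_mono_adjacent (x := w) (y := v) (z := v')
        ⟨hw0, by linarith⟩ ⟨by linarith, by linarith⟩ hwv hvv
      have g1 := abs_le.mp (hq v hv (by linarith))
      have g2 := abs_le.mp (hq w hw0 (by linarith))
      have e1 : (w - v₀) / a = (1 - η) * ((v - v₀) / a) := by
        rw [hw]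
        ring
      have h1η : 0 < 1 - η := by linarith
      rw [e1, Real.log_mul h1η.ne' (by positivity)] at g2
      have e2 : F w - F v ≤ -(2 * Real.log (1 - η)) + η ^ 2 := by linarith [g1.1, g2.2]
      have e3 := log_upper hη0 hη1
      have e4 : (F w - F v) / (v - w) ≤ (2 + ε) / (v - v₀) := by
        have hwv' : v - w = η * (v - v₀) := by
          rw [hw]
          ring
        rw [hwv', div_le_div_iff₀ (by positivity) hx]
        have e5 : F w - F v ≤ (2 + ε) * η := by nlinarith
        calc (F w - F v) * (v - v₀) ≤ (2 + ε) * η * (v - v₀) :=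
              mul_le_mul_of_nonneg_right e5 hx.le
          _ = (2 + ε) * (η * (v - v₀)) := by ring
      refine le_trans ?_ e4
      have e6 : (F w - F v) / (v - w) = -((F v - F w) / (v - w)) := by
        rw [← neg_div]
        congr 1
        ring
      have e7 : (F v - F v') / (v' - v) = -((F v' - F v) / (v' - v)) := by
        rw [← neg_div]
        congr 1
        ring
      rw [e6, e7]
      linarith
  · intro ε hε
    set q : ℝ := Real.log (1 + ε ^ 2 / (4 * (1 + ε))) with hqd
    have hr0 : 0 < ε ^ 2 / (4 * (1 + ε)) := by positivity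
    have hq0 : 0 < q := Real.log_pos (by linarith)
    obtain ⟨δ, hδ, hδδ₀, hq⟩ := hnear (q / 2) (by positivity)
    refine ⟨δ, hδ, fun v₁ v₂ p b hv₁ hvv hv₂ hlin => ?_⟩
    set x₁ := v₁ - v₀ with hx₁
    set x₂ := v₂ - v₀ with hx₂
    have hx10 : 0 < x₁ := by linarith
    have hx12 : x₁ < x₂ := by linarith
    have hx20 : 0 < x₂ := by linarith
    set m := (v₁ + v₂) / 2 with hm
    have g1 := (abs_le.mp (hq v₁ hv₁ (by linarith))).1
    have g2 := (abs_le.mp (hq v₂ (by linarith) hv₂)).1
    have g3 := (abs_le.mp (hq m (by linarith) (by linarith))).2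
    rw [hlin v₁ ⟨le_rfl, hvv.le⟩] at g1
    rw [hlin v₂ ⟨hvv.le, le_rfl⟩] at g2
    rw [hlin m ⟨by linarith, by linarith⟩] at g3
    have em : m - v₀ = (x₁ + x₂) / 2 := by
      rw [hm, hx₁, hx₂]
      ring
    rw [em] at g3
    rw [← hx₁] at g1
    rw [← hx₂] at g2
    rw [Real.log_div (by positivity) ha.ne'] at g1 g2 g3
    have e1 : 2 * Real.log ((x₁ + x₂) / 2) ≤ Real.log x₁ + Real.log x₂ + q := by
      have : b - p * m = ((b - p * v₁) + (b - p * v₂)) / 2 := by
        rw [hm]
        ring
      rw [this] at g3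
      linarith
    have e2 : ((x₁ + x₂) / 2) ^ 2 ≤ x₁ * x₂ * (1 + ε ^ 2 / (4 * (1 + ε))) := by
      have h1 : Real.log (((x₁ + x₂) / 2) ^ 2) ≤
          Real.log (x₁ * x₂ * (1 + ε ^ 2 / (4 * (1 + ε)))) := by
        rw [Real.log_pow, Real.log_mul (by positivity) (by positivity),
          Real.log_mul hx10.ne' hx20.ne']
        push_cast
        exact e1
      exact (Real.log_le_log_iff (by positivity) (by positivity)).mp h1
    by_contra hcon
    push Not at hcon
    have e3 : (x₂ - x₁) ^ 2 * (1 + ε) ≤ ε ^ 2 * (x₁ * x₂) := by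
      have h2 : x₁ * x₂ * (1 + ε ^ 2 / (4 * (1 + ε))) =
          x₁ * x₂ + x₁ * x₂ * ε ^ 2 / (4 * (1 + ε)) := by ring
      rw [h2] at e2
      have h3 : ((x₁ + x₂) / 2) ^ 2 - x₁ * x₂ ≤ x₁ * x₂ * ε ^ 2 / (4 * (1 + ε)) := by linarith
      rw [le_div_iff₀ (by positivity)] at h3
      nlinarith
    have e4 : ε * x₁ < x₂ - x₁ := by linarith
    have e5 : ε * x₂ < (1 + ε) * (x₂ - x₁) := by nlinarith
    have e6 : ε * x₁ * (ε * x₂) < (x₂ - x₁) * ((1 + ε) * (x₂ - x₁)) :=
      mul_lt_mul'' e4 e5 (by positivity) (by positivity)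
    nlinarith

end Pool.Agent.H15.CP
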